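import Pool.Agent.N783.PF.Final
import Pool.Agent.N844.PL.Gen
import Pool.Agent.N844.QR.Ex

/-!
# A Hasse principle for linear subspaces on the intersections of two quadrics of every odd dimension, for a
# positive proportion of the discriminants, over every number field

Let `F` be ANY number field, `g ≥ 1`, and let `X ⊂ P^(2g+1)` be a smooth complete intersection of two
quadrics over `F`, of dimension `2 g - 1`, such that a member of the pencil of the quadrics which contain `X`
is defined over `F` and singular. For `g ≥ 2` it is a Fano variety. Up to a change of coordinates `X` is the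
base locus of a pencil `x A - z B` of symmetric matrices over `F` with

  `(-1)^(g+1) det (x A - z B) = m² z F(x, z)`, `F(x, 1) = f`, `m ≠ 0`,

where `f` is monic of degree `2 g + 1` over the ring of integers, with trace zero. Order ALL these `f` by
height: all conjugates of the coefficient of `x^j` are at most `B^(2g+1-j)`. Theorem: for a positive
proportion of the `f` the following local-global principle holds for ALL the `X` with discriminant `m² z F`:

  if `X` contains a linear subspace of dimension `g - 1` over all completions of `F`, then `X` contains a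
  linear subspace of dimension `g - 1` over `F`; in particular `X` has a rational point.

For `g ≥ 2` it contains a line, so by projection from this line (Colliot-Thélène, Sansuc and
Swinnerton-Dyer) `X` is rational over `F` and has weak approximation. (This consequence is not formalized.)
For `g = 2` these are the intersections of two quadrics in `P^5`, the decisive case of the Hasse principle
for Fano intersections of two quadrics; the local condition is about lines instead of points. For `g = 1`
the `X` are curves of genus one in `P^3`, the planes are points, and the theorem is the Hasse principle.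

Proof. If `f` is irreducible, `L = F[x]/(f) = F(θ)`, then (`N844/PL/{Ker,Split,Kry,Gen}.lean`) after a change
of coordinates and multiplication of `A, B` by a constant the forms are `τ(h λ²)` and `τ(h θ λ²) + a²` for
`λ ∈ L`, `a ∈ F` with an element `h` of `L` whose norm is a square. Let `E` be a completion of `F` and `W` the
vector space of a linear subspace of dimension `g - 1` of `X` over `E`. For a linear form `ρ = (μ, b)`
which is zero on `W` the polynomial `u = (h μ² mod f) - b² f` has the property: if an irreducible polynomial
`π` divides `u` with odd multiplicity, then `f` is a square modulo `π`; because the form `x A - B` modulo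
`π` has a totally isotropic subspace of dimension `g + 1` (`N844/PL/{Sq,Par,Pt}.lean`). For a suitable `ρ`
(`N844/PL/Ch.lean`) the polynomial `u` is prime to `f` and has degree `2 g + 1` and leading coefficient
`-b²`. So the class of `h` modulo squares comes from the point of the Jacobian of `y² = f` over `E` with
these `π`. If this is true for all completions then `h` gives an element of the 2-Selmer group, so by the
theorem of project PF (helper783: the 2-Selmer group is zero for a positive proportion of the `f`) it is a
square in `L`, and `X` contains the linear subspace of the `λ = h^(-1/2) p(θ)`, `deg p < g`, `a = 0`.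

The theorem on the 2-Selmer groups over number fields is joint work: project PF: helper783, with parts by
helpers 31, 42, 61, 73, 75, 78, 99, 134, 169, 170, 189, 195, 225, 255, 286, 331, 352, 364, 374, 426, 438,
456, 459, 482, 490, 545, 547, 591, 614, 645, 667, 707, 710, 747, 771, 823, 849, 862, 935, 951, 999; from
project PQ (helper783) parts by 2, 262, 271, 348, 394, 456, 457, 488, 498, 507, 530, 644, 747, 755, 835, 850,
878, 891, 951; from PP, PJ, JM, QM parts by 187, 195, 352, 434, 507, 630, 704, 765, 769, 862, 874. The
theory of the planes (`N844/PL`) and of the pencils (`N844/QR`): helper844.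
-/

set_option autoImplicit false
set_option linter.all false

open Finset Matrix Polynomial IsDedekindDomain NumberField

namespace Pool.Agent.Results.MP_03ef3d_ag.PlanesOnTwoQuadrics

/-! ### Pencils of quadrics and linear subspaces -/

section pencils

variable {K : Type} [Field K]

/-- the homogeneous form `F(x, z)` of degree `2 g + 1` of `f` -/
def form (g : ℕ) (f : K[X]) (x z : K) : K :=
  ∑ i ∈ range (2 * g + 2), f.coeff i * x ^ i * z ^ (2 * g + 1 - i)

/-- the matrices of size `2 g + 2` -/
abbrev Mat (g : ℕ) (K : Type) : Type := Matrix (Fin (2 * g + 2)) (Fin (2 * g + 2)) K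

/-- the quadratic form of a matrix -/
def qf {N : ℕ} (A : Matrix (Fin N) (Fin N) K) (y : Fin N → K) : K := y ⬝ᵥ (A *ᵥ y)

/-- the pencils with discriminant `m ^ 2 z F(x, z)` -/
structure IsPencil (g : ℕ) (f : K[X]) (m : K) (A B : Mat g K) : Prop where
  symA : A.IsSymm
  symB : B.IsSymm
  disc : ∀ x z : K, (-1) ^ (g + 1) * (x • A - z • B).det = m ^ 2 * (z * form g f x z)

/-- the base locus `X` of the pencil is smooth (Jacobian criterion at the points over `K`) -/
def Smooth {N : ℕ} (A B : Matrix (Fin N) (Fin N) K) : Prop :=
  ∀ y : Fin N → K, y ≠ 0 → qf A y = 0 → qf B y = 0 → LinearIndependent K ![A *ᵥ y, B *ᵥ y]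

/-- there is a vector space `W` of dimension `d` over `K` on which both quadratic forms are zero -/
def HasSpace {N : ℕ} (d : ℕ) (A B : Matrix (Fin N) (Fin N) K) : Prop :=
  ∃ W : Submodule K (Fin N → K), Module.finrank K W = d ∧ ∀ y ∈ W, qf A y = 0 ∧ qf B y = 0

/-- The base locus `X` of the pencil contains a linear subspace of dimension `g - 1` defined over the field
`E`, for a pencil over `K` and a map `φ` from `K` to `E`: there is a vector space of dimension `g` over `E`
on which both quadratic forms are zero. -/
def HasPlane {g : ℕ} {E : Type} [Field E] (φ : K →+* E) (A B : Mat g K) : Prop :=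
  HasSpace g (A.map φ) (B.map φ)

end pencils

section numberfield

variable (F : Type) [Field F] [NumberField F] (g B : ℕ)

/-- For all the pencils over `F` with discriminant `m ^ 2 z F(x, z)`, `m ≠ 0`: if the base locus contains a
linear subspace of dimension `g - 1` over the completions of `F` at all finite places and over the real
numbers, for all embeddings of `F` in the real numbers, then it contains a linear subspace of dimension
`g - 1` over `F`. -/
def LocalGlobal (f : F[X]) : Prop :=
  ∀ (m : F) (A B : Mat g F), m ≠ 0 → IsPencil g f m A B →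
    (∀ v : HeightOneSpectrum (𝓞 F), HasPlane (algebraMap F (v.adicCompletion F)) A B) →
    (∀ ρ : F →+* ℝ, HasPlane ρ A B) → HasPlane (RingHom.id F) A B

/-- `f` is monic of degree `2 g + 1` without term of degree `2 g`, and all the conjugates of the coefficient
of `x ^ j` are at most `B ^ (2 g + 1 - j)` in absolute value. -/
structure IsPoly (f : (𝓞 F)[X]) : Prop where
  monic : f.Monic
  degree : f.natDegree = 2 * g + 1
  trace : f.coeff (2 * g) = 0
  height : ∀ j ≤ 2 * g, ∀ σ : F →+* ℂ, ‖σ (f.coeff j : F)‖ ≤ (B : ℝ) ^ (2 * g + 1 - j)

/-- all the polynomials `f` of height at most `B` -/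
def Polys : Set (𝓞 F)[X] := {f | IsPoly F g B f}

/-- there is no prime `P` such that `P ^ (2 (2 g + 1 - j))` divides the coefficient of `x ^ j` for all
`j ≤ 2 g` -/
def Minimal (f : (𝓞 F)[X]) : Prop :=
  ∀ P : Ideal (𝓞 F), P.IsPrime → P ≠ ⊥ → ¬ ∀ j ≤ 2 * g, f.coeff j ∈ P ^ (2 * (2 * g + 1 - j))

/-- the polynomial `f` over `F` -/
noncomputable def polyF (f : (𝓞 F)[X]) : F[X] := f.map (algebraMap (𝓞 F) F)

/-- the polynomials `f` of height at most `B` which are minimal and irreducible over `F` and for which the
local-global principle holds -/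
def Good : Set (𝓞 F)[X] :=
  {f ∈ Polys F g B | Minimal F g f ∧ Irreducible (polyF F f) ∧ LocalGlobal F g (polyF F f)}

/-- a positive proportion of all the polynomials ordered by height is good -/
def PositiveProportion : Prop :=
  ∃ c : ℝ, 0 < c ∧ ∃ B₀ : ℕ, ∀ B ≥ B₀, (Polys F g B).Finite ∧ 0 < (Polys F g B).ncard ∧
    c * ((Polys F g B).ncard : ℝ) ≤ ((Good F g B).ncard : ℝ)

end numberfield

section proof

variable (F : Type) [Field F] [NumberField F] {g : ℕ}

theorem ht_iff (B : ℕ) (f : (𝓞 F)[X]) : IsPoly F g B f ↔ Pool.Agent.N783.PF.Ht g B f :=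
  ⟨fun h => ⟨h.monic, h.degree, h.trace, h.height⟩, fun h => ⟨h.mon, h.deg, h.tr, h.ht⟩⟩

theorem plane_iff {K : Type} [Field K] (A B : Mat g K) :
    HasPlane (RingHom.id K) A B ↔ Pool.Agent.N844.PL.HasPl g A B := by
  unfold HasPlane
  rw [show A.map (RingHom.id K) = A from Matrix.map_id A,
    show B.map (RingHom.id K) = B from Matrix.map_id B]
  exact Iff.rfl

theorem pen {K : Type} [Field K] {f : K[X]} {m : K} {A B : Mat g K} (h : IsPencil g f m A B) :
    Pool.Agent.N844.QR.IsPen g f m A B := ⟨h.symA, h.symB, h.disc⟩

/-- the local condition in terms of polynomials -/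
theorem loc {K : Type} [Field K] [CharZero K] (φ : F →+* K) {f : F[X]} (hf : f.Monic)
    (hd : f.natDegree = 2 * g + 1) (hs : f.Separable) {h : F[X]} (hh : IsCoprime h f)
    (hN : IsSquare (Algebra.norm F (AdjoinRoot.mk f h))) {c : F} (hc : c ≠ 0) {P A B : Mat g F}
    (hP : P.det ≠ 0) (hA : Pᵀ * A * P = c • Pool.Agent.N844.PL.quadA g f h)
    (hB : Pᵀ * B * P = c • Pool.Agent.N844.PL.quadB g f h) (hpl : HasPlane φ A B) :
    ∃ (l : List (K[X] × K[X])) (s : K[X]),
      (∀ p ∈ l, p.1.Monic ∧ IsCoprime p.1 (f.map φ) ∧ p.1 ∣ p.2 ^ 2 - f.map φ) ∧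
      f.map φ ∣ h.map φ * (l.map fun p => (-1) ^ p.1.natDegree * p.1).prod - s ^ 2 := by
  refine Pool.Agent.N844.PL.loc_map φ hf hd hs h hh hN ?_
  refine Pool.Agent.N844.PL.pl_to (c := φ c) (P := P.map φ) ?_ ?_
    (Pool.Agent.N844.PL.map_conj φ hA) (Pool.Agent.N844.PL.map_conj φ hB) hpl
  · rwa [Ne, map_eq_zero]
  · have e : (P.map φ).det = φ P.det := by
      rw [RingHom.map_det]
      rfl
    rw [e]
    rwa [Ne, map_eq_zero]

/-- from the explicit 2-Selmer group to the planes -/
theorem localGlobal {f : (𝓞 F)[X]} (hf : f.Monic) (hd : f.natDegree = 2 * g + 1)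
    (hi : Irreducible (polyF F f)) (hs : Pool.Agent.N783.PF.SelZero f) :
    LocalGlobal F g (polyF F f) := by
  intro m A B hm hpen hv hρ
  have hf' : (polyF F f).Monic := hf.map _
  have hd' : (polyF F f).natDegree = 2 * g + 1 := by
    unfold polyF
    rw [hf.natDegree_map, hd]
  obtain ⟨h, c, P, hh, hN, hc, hP, hA, hB⟩ :=
    Pool.Agent.N844.PL.normal hf' hd' hi A B m hm (pen hpen)
  obtain ⟨s, hs'⟩ := hs h hh hN (fun v => by
      haveI : CharZero (v.adicCompletion F) :=
        charZero_of_injective_algebraMap (algebraMap F (v.adicCompletion F)).injective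
      exact loc F (algebraMap F (v.adicCompletion F)) hf' hd' hi.separable hh hN hc hP hA hB (hv v))
    (fun ρ => loc F ρ hf' hd' hi.separable hh hN hc hP hA hB (hρ ρ))
  exact (plane_iff A B).2 (Pool.Agent.N844.PL.pl_from hP hA hB
    (Pool.Agent.N844.PL.plane_of_sq hf' hd' h hh s hs'))

end proof

/-- **Theorem.** For every `g ≥ 1` and every number field `F` there is a positive constant `c` such that for
all large `B` at least `c` times the number of all the `f` of height at most `B` are minimal, irreducible
over `F` and such that for ALL the pencils of quadrics in `P^(2g+1)` over `F` with discriminant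
`m ^ 2 z F(x, z)` the following is true: if the base locus `X` contains a linear subspace of dimension
`g - 1` over all completions of `F` then it contains a linear subspace of dimension `g - 1` over `F`. For all
separable `f` the base loci of these pencils are smooth over all fields which contain `F`, and for every `f`
there is a pencil with `m = 1` whose base locus contains a linear subspace of dimension `g - 1`. -/
theorem result (g : ℕ) (hg : 1 ≤ g) (F : Type) [Field F] [NumberField F] :
    PositiveProportion F g ∧
    ∀ f : F[X], f.Monic → f.natDegree = 2 * g + 1 → f.Separable →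
      (∀ (m : F) (A B : Mat g F), m ≠ 0 → IsPencil g f m A B →
        ∀ (K : Type) [Field K] (φ : F →+* K), Smooth (A.map φ) (B.map φ)) ∧
      ∃ A B : Mat g F, IsPencil g f 1 A B ∧ HasPlane (RingHom.id F) A B := by
  classical
  haveI : Infinite F := CharZero.infinite _
  refine ⟨?_, ?_⟩
  · obtain ⟨c, hc, B₀, hB₀⟩ := Pool.Agent.N783.PF.main g F hg
    refine ⟨c, hc, B₀, fun B hB => ?_⟩
    obtain ⟨hHt, hle⟩ := hB₀ B hB
    have e1 : Polys F g B = {f : (𝓞 F)[X] | Pool.Agent.N783.PF.Ht g B f} :=
      Set.ext fun f => ht_iff F B f
    have hfin : (Polys F g B).Finite := by rw [e1]; exact hHt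
    refine ⟨hfin, ?_, ?_⟩
    · rw [Set.ncard_pos hfin]
      refine ⟨X ^ (2 * g + 1), monic_X_pow _, natDegree_X_pow _, ?_, fun j hj σ => ?_⟩
      · rw [coeff_X_pow, if_neg (by omega)]
      · rw [coeff_X_pow, if_neg (by omega)]
        rw [show ((0 : 𝓞 F) : F) = 0 from rfl, map_zero, norm_zero]
        positivity
    · rw [e1]
      refine hle.trans ?_
      have h3 : {f : (𝓞 F)[X] | Pool.Agent.N783.PF.Ht g B f ∧
          Irreducible (Pool.Agent.N783.PF.fF f) ∧ Pool.Agent.N783.PF.SelZero f ∧
          Pool.Agent.N783.PF.Min g f} ⊆ Good F g B := by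
        rintro f ⟨h4, h5, h6, h7⟩
        exact ⟨(ht_iff F B f).2 h4, h7, h5, localGlobal F h4.mon h4.deg h5 h6⟩
      exact_mod_cast Set.ncard_le_ncard h3 (hfin.subset fun a ha => ha.1)
  · intro f hf hd hs
    refine ⟨fun m A B hm h K _ φ y hy h6 h7 => ?_, ?_⟩
    · exact (pen h).smooth φ hf hd (by rwa [Ne, map_eq_zero]) hs.map hy h6 h7
    · have h' := Pool.Agent.N844.QR.ex_pen hf hd
      refine ⟨Pool.Agent.N844.QR.eA hf hd, Pool.Agent.N844.QR.eB hf hd,
        ⟨h'.symA, h'.symB, h'.disc⟩, (plane_iff _ _).2 ?_⟩
      rw [Pool.Agent.N844.PL.eA_eq hf hd, Pool.Agent.N844.PL.eB_eq hf hd]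
      exact Pool.Agent.N844.PL.plane_of_sq hf hd 1 isCoprime_one_left 1 (by simp)

end Pool.Agent.Results.MP_03ef3d_ag.PlanesOnTwoQuadrics
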